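import Pool.Agent.Q282.MN.Loc
import Pool.Agent.Q282.CL.Loc2

/-!
# Convergence to the Brownian motion for sums over the primes of a number field
-/

set_option autoImplicit false
set_option linter.unusedSectionVars false

namespace Q282.JB

open Finset NumberField IsDedekindDomain Filter
open scoped NNReal
open Q282.NF Q282.GK Q282.CL Q282.MN
open Q282.BP (PP bx)
open Pool.Agent.H921R2.TatePole (below deg nm nm_eq)

/-- second moments over boxes -/
theorem sq_kbox {κ : Type} [Fintype κ] [DecidableEq κ] (S : Finset ℕ) (hS : ∀ p ∈ S, p.Prime) (Y : ℕ) (hY : ∀ p ∈ S, p ≤ Y)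
    (H : (p : ℕ) → (κ → ZMod p) → ℝ) (β : ℕ → ℝ) (hβ0 : ∀ p ∈ S, 0 ≤ β p) (C : ℝ) (hC : 1 ≤ C) (hβC : ∀ p ∈ S, 2 * β p ≤ C)
    (hH : ∀ p ∈ S, ∀ u, |H p u| ≤ β p) (T : ℝ) (hT : 0 < T) (N : κ → ℤ) (L : κ → ℕ) (hL : ∀ i, T ≤ L i) :
    av (fun t : kbox N L => (∑ p ∈ S, (H p (fun i => ((t : κ → ℤ) i : ZMod p)) - mn H p)) ^ 2) ≤
      ∑ p ∈ S, (2 * β p) ^ 2 + (Y : ℝ) ^ 2 * (C ^ 2 * (Real.exp (Fintype.card κ * (Y : ℝ) ^ 2 / T) - 1)) := by
  classical
  obtain ⟨e⟩ : Nonempty (κ ≃ Fin (Fintype.card κ)) := ⟨Fintype.equivFin κ⟩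
  have hmn : ∀ p ∈ S, |mn H p| ≤ β p := by
    intro p hp
    have : Fact p.Prime := ⟨hS p hp⟩
    rw [mn_eq]
    exact abs_av_le_const (hH p hp)
  have h1 := sq_bx (d := Fintype.card κ) (S := S) (g := fun p n => H p (fun i => ((N i + (n (e i) : ℤ) : ℤ) : ZMod p)) - mn H p) hS
    (fun p hp n => by
      have h2 : H p (fun i => ((N i + (n (e i) : ℤ) : ℤ) : ZMod p)) =
          H p (fun i => ((N i + (((fun i => n i % p) (e i) : ℕ) : ℤ) : ℤ) : ZMod p)) := by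
        congr 1
        funext i
        rw [Int.cast_add, Int.cast_add, Int.cast_natCast, Int.cast_natCast, ZMod.natCast_mod]
      show H p _ - mn H p = H p _ - mn H p
      rw [h2])
    (fun p hp => by
      have : Fact p.Prime := ⟨hS p hp⟩
      rw [mean_av e p N (fun u => H p u - mn H p), av_sub, av_const, ← mn_eq, sub_self])
    (b := fun p => 2 * β p) (fun p hp => by
      show 0 ≤ 2 * β p
      linarith [hβ0 p hp])
    (fun p hp n => by
      have h2 := hH p hp (fun i => ((N i + (n (e i) : ℤ) : ℤ) : ZMod p))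
      have h3 := hmn p hp
      exact (abs_sub _ _).trans (by
        show _ ≤ 2 * β p
        linarith))
    hC hβC hY hT (L := fun k => L (e.symm k)) (fun k => hL _)
  have h2 : av (fun t : kbox N L => (∑ p ∈ S, (H p (fun i => ((t : κ → ℤ) i : ZMod p)) - mn H p)) ^ 2) =
      av (fun n : bx (fun k => L (e.symm k)) => (∑ p ∈ S, (H p (fun i => ((N i + ((n : Fin _ → ℕ) (e i) : ℤ) : ℤ) : ZMod p)) - mn H p)) ^ 2) := by
    rw [av_equiv (kequiv e N L)]
    rfl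
  rw [h2]
  exact h1

lemma exp_sub_one {x : ℝ} (hx : 0 ≤ x) : Real.exp x - 1 ≤ x * Real.exp x := by
  have h1 := Real.add_one_le_exp (-x)
  have h2 := Real.exp_pos x
  have h3 : Real.exp (-x) * Real.exp x = 1 := by
    rw [← Real.exp_add, neg_add_cancel, Real.exp_zero]
  have h4 := mul_le_mul_of_nonneg_right h1 h2.le
  rw [h3] at h4
  linarith

/-- the indicator of the primes -/
noncomputable def c1 (n : ℕ) : ℝ := if n.Prime then 1 else 0

/-- the indicator of the numbers up to `Y` -/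
noncomputable def cY (Y n : ℕ) : ℝ := if n ≤ Y then 1 else 0

/-- the indicator of the other numbers up to `Y` -/
noncomputable def c2 (Y n : ℕ) : ℝ := if n ≤ Y ∧ ¬ n.Prime then 1 else 0

lemma c1_le (n : ℕ) : |c1 n| ≤ 1 := by
  unfold c1
  split_ifs <;> simp

lemma c2_le (Y n : ℕ) : |c2 Y n| ≤ 1 := by
  unfold c2
  split_ifs <;> simp

section

variable {K : Type} [Field K] [NumberField K] {ι : Type} [Fintype ι] [DecidableEq ι] {P₀ : ℕ} {κ B : ℝ}
  {val : HeightOneSpectrum (𝓞 K) → (ι → 𝓞 K) → ℝ} {d : ℕ}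

lemma split (b : Fin d → 𝓞 K) (Y p : ℕ) (hp : p ∈ PP Y) (u : ι × Fin d → ZMod p) :
    Hw val b (cY Y) p u = Hw val b c1 p u + Hw val b (c2 Y) p u := by
  obtain ⟨h1, hpp⟩ := mem_filter.1 hp
  have hpY := (mem_Icc.1 h1).2
  obtain ⟨P, hP⟩ : ∃ P : Nat.Primes, (P : ℕ) = p := ⟨⟨p, hpp⟩, rfl⟩
  subst hP
  rw [Hw_eq, Hw_eq, Hw_eq, ← sum_add_distrib]
  refine sum_congr rfl fun v _ => ?_
  rw [← add_mul]
  congr 1
  obtain ⟨v, hv⟩ := v
  show cY Y (Ideal.absNorm v.asIdeal) = c1 (Ideal.absNorm v.asIdeal) + c2 Y (Ideal.absNorm v.asIdeal)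
  unfold cY c1 c2
  by_cases h3 : (Ideal.absNorm v.asIdeal).Prime
  · have h4 : Ideal.absNorm v.asIdeal = P := by
      rw [norm_eq, hv] at h3 ⊢
      have h5 : deg v = 1 := Nat.Prime.eq_one_of_pow h3
      rw [h5, pow_one]
    rw [if_pos (by rw [h4]; exact hpY), if_pos h3, if_neg (fun h => h.2 h3), add_zero]
  · by_cases h4 : Ideal.absNorm v.asIdeal ≤ Y
    · rw [if_pos h4, if_neg h3, if_pos ⟨h4, h3⟩, zero_add]
    · rw [if_neg h4, if_neg h3, if_neg (fun h => h4 h.1), zero_add]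

lemma c2_small (h : Loc2 K ι P₀ κ B val) (hB : 0 ≤ B) (b : Fin d → 𝓞 K) (Y p : ℕ) (hp : p.Prime) (u : ι × Fin d → ZMod p) :
    |Hw val b (c2 Y) p u| ≤ (Module.finrank ℚ K * B) / p := by
  obtain ⟨P, hP⟩ : ∃ P : Nat.Primes, (P : ℕ) = p := ⟨⟨p, hp⟩, rfl⟩
  subst hP
  rw [Hw_eq]
  refine (abs_sum_le_sum_abs _ _).trans ?_
  have hp0 : (0 : ℝ) < (P : ℕ) := by exact_mod_cast P.prop.pos
  have h1 : ∀ v : {v : HeightOneSpectrum (𝓞 K) // below v = P}, |c2 Y (Ideal.absNorm v.1.asIdeal) * vl val b v.1 P u| ≤ B / (P : ℕ) := by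
    rintro ⟨v, hv⟩
    show |c2 Y (Ideal.absNorm v.asIdeal) * vl val b v P u| ≤ _
    by_cases h3 : (Ideal.absNorm v.asIdeal).Prime
    · have : c2 Y (Ideal.absNorm v.asIdeal) = 0 := by
        unfold c2
        rw [if_neg (fun h => h.2 h3)]
      rw [this, zero_mul, abs_zero]
      positivity
    · have h4 : 2 ≤ deg v := by
        have h5 := (nm_eq v).2.1
        by_contra h6
        have h7 : deg v = 1 := by omega
        rw [norm_eq, h7, pow_one] at h3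
        exact h3 (below v).prop
      rw [abs_mul]
      have h5 : |vl val b v P u| ≤ B / (P : ℕ) := by
        refine (loc2_le h v _).trans ?_
        refine div_le_div_of_nonneg_left hB hp0 ?_
        refine Real.le_sqrt_of_sq_le ?_
        rw [norm_eq, hv]
        exact_mod_cast Nat.pow_le_pow_right P.prop.pos h4
      calc _ ≤ 1 * (B / (P : ℕ)) := mul_le_mul (c2_le _ _) h5 (abs_nonneg _) zero_le_one
        _ = _ := one_mul _
  refine (sum_le_sum fun v _ => h1 v).trans ?_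
  rw [sum_const, card_univ, nsmul_eq_mul, mul_div_assoc]
  exact mul_le_mul_of_nonneg_right (fib_card P) (by positivity)

end

/-- the law of the sums over the primes of a number field -/
theorem brown_nf (K : Type) [Field K] [NumberField K] (ι : Type) [Fintype ι] [DecidableEq ι] (P₀ : ℕ) (κ B : ℝ) (hB : 0 ≤ B)
    (I : Finset ℝ≥0) (hI : ∀ s ∈ I, 0 < s ∧ s ≤ 1) (x : I → ℝ) (ε : ℝ) (hε : 0 < ε) :
    ∃ X₁ : ℕ, ∀ X : ℕ, X₁ ≤ X → ∀ (b : Fin (Module.finrank ℚ K) → 𝓞 K), (∀ x : 𝓞 K, ∃ a : Fin (Module.finrank ℚ K) → ℤ, x = ∑ j, (a j : 𝓞 K) * b j) →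
    ∀ (N : ι × Fin (Module.finrank ℚ K) → ℤ) (L : ι × Fin (Module.finrank ℚ K) → ℕ), (∀ i, (X : ℝ) ^ 5 ≤ L i) →
    ∀ val : HeightOneSpectrum (𝓞 K) → (ι → 𝓞 K) → ℝ, Loc2 K ι P₀ κ B val →
    ∀ (E : Finset (ι × Fin (Module.finrank ℚ K) → ℤ)), (∀ n, n ∈ E ↔ n ∈ kbox N L ∧ ∀ s : I,
      (∑ v ∈ SX K (tm X (s : ℝ≥0)), val v (comb b n) - κ * (s : ℝ≥0) * Real.log (Real.log X)) / Real.sqrt (Real.log (Real.log X)) ≤ x s) →
    |(E.card : ℝ) / ∏ i, (L i : ℝ) - W I x| ≤ ε := by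
  classical
  obtain ⟨C₁, hC₁0, hC₁⟩ := Hw_mean (ι := ι) K P₀ κ B hB
  obtain ⟨C₂, hC₂0, hC₂⟩ := Hw_mul (ι := ι) K P₀ κ B hB
  obtain ⟨C₀, hC₀0, hC₀⟩ := summ
  obtain ⟨M₀, hM₀0, hM₀⟩ := nu_sum K
  obtain ⟨D, hD⟩ : ∃ D : ℝ, D = Module.finrank ℚ K := ⟨_, rfl⟩
  have hD0 : 0 ≤ D := by rw [hD]; positivity
  obtain ⟨ρ, hρ⟩ : ∃ ρ : ℕ → ℝ, ρ = fun p => if p.Prime then nu K p else 0 := ⟨_, rfl⟩
  have hρp : ∀ p : ℕ, p.Prime → ρ p = nu K p := fun p hp => by rw [hρ]; exact if_pos hp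
  have hρle : ∀ p, |ρ p| ≤ D := by
    intro p
    rw [hρ]
    show |if p.Prime then nu K p else 0| ≤ D
    split_ifs with hp
    · obtain ⟨h1, h2⟩ := nu_le (K := K) ⟨p, hp⟩
      rw [abs_of_nonneg h1, hD]
      exact h2
    · rw [abs_zero]
      exact hD0
  obtain ⟨M₁, hM₁⟩ := sums_close ρ M₀ D κ (C₁ + C₂) hD0 (by positivity) hρle (by
    intro Y hY
    have h1 : ∑ p ∈ PP Y, ρ p / p = ∑ p ∈ PP Y, nu K p / p := sum_congr rfl fun p hp => by rw [hρp p (mem_filter.1 hp).2]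
    rw [h1]
    exact hM₀ Y hY)
  obtain ⟨δ, hδ⟩ : ∃ δ : ℕ, δ = Fintype.card (ι × Fin (Module.finrank ℚ K)) := ⟨_, rfl⟩
  obtain ⟨C₅, hC₅⟩ : ∃ C₅ : ℝ, C₅ = 2 * (D * B) + 1 := ⟨_, rfl⟩
  have hC₅1 : 1 ≤ C₅ := by
    rw [hC₅]
    have : 0 ≤ D * B := by positivity
    linarith
  obtain ⟨M, hM⟩ : ∃ M : ℝ, M = max M₁ (1 + ((2 * (D * B)) ^ 2 * C₀ + C₅ ^ 2 * (δ * Real.exp δ)) + C₁ * C₀) := ⟨_, rfl⟩
  obtain ⟨X₁, h⟩ := brown (κ := ι × Fin (Module.finrank ℚ K)) (B := D * B + 1) (κ₀ := κ) (M := M) (by positivity) I hI x ε hε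
  refine ⟨max 16 X₁, fun X hX b hb N L hL val hloc E hE => ?_⟩
  have hX16 : 16 ≤ X := (le_max_left _ _).trans hX
  have hXX₁ : X₁ ≤ X := (le_max_right _ _).trans hX
  have hX0 : (16 : ℝ) ≤ X := by exact_mod_cast hX16
  have hL0 : ∀ i, 0 < L i := fun i => by
    have h1 : (0 : ℝ) < L i := lt_of_lt_of_le (by positivity) (hL i)
    exact_mod_cast h1
  have hne : Nonempty (kbox N L) := kbox_nonempty hL0
  have hmean : ∀ p : ℕ, p.Prime → |mn (Hw val b c1) p - κ * (ρ p / p)| ≤ (C₁ + C₂) / (p : ℝ) ^ (3 / 2 : ℝ) := by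
    intro p hp
    have : Fact p.Prime := ⟨hp⟩
    rw [mn_eq, hρp p hp]
    have h1 := hC₁ val hloc ⟨p, hp⟩ (Module.finrank ℚ K) b hb c1 1 zero_le_one (fun f _ _ => c1_le _)
    have h2 : c1 p = 1 := if_pos hp
    have h3 : |av (Hw val b c1 p) - c1 p * (κ * (nu K p / p))| ≤ C₁ * 1 / (p : ℝ) ^ (3 / 2 : ℝ) := h1
    rw [h2, one_mul, mul_one] at h3
    exact h3.trans (div_le_div_of_nonneg_right (by linarith) (by positivity))
  have hsq : ∀ p : ℕ, p.Prime → |mn (fun p u => Hw val b c1 p u ^ 2) p - ρ p / p| ≤ (C₁ + C₂) / (p : ℝ) ^ (3 / 2 : ℝ) := by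
    intro p hp
    have : Fact p.Prime := ⟨hp⟩
    rw [mn_eq, hρp p hp]
    have h1 := hC₂ val hloc ⟨p, hp⟩ (Module.finrank ℚ K) b hb c1 c1 1 zero_le_one (fun f _ _ => c1_le _) (fun f _ _ => c1_le _)
    have h2 : c1 p = 1 := if_pos hp
    have h3 : |av (fun u => Hw val b c1 p u * Hw val b c1 p u) - c1 p * c1 p * (nu K p / p)| ≤ C₂ * 1 ^ 2 / (p : ℝ) ^ (3 / 2 : ℝ) := h1
    rw [h2, one_mul, one_mul, one_pow, mul_one] at h3
    have h4 : (fun u => Hw val b c1 p u ^ 2) = fun u => Hw val b c1 p u * Hw val b c1 p u := by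
      funext u
      ring
    show |av (fun u => Hw val b c1 p u ^ 2) - nu K p / p| ≤ _
    rw [h4]
    exact h3.trans (div_le_div_of_nonneg_right (by linarith) (by positivity))
  obtain ⟨g1, g2⟩ := hM₁ (ι × Fin (Module.finrank ℚ K)) (Hw val b c1) hmean hsq
  have hF : ∀ Y : ℕ, 3 ≤ Y → Y ≤ X → av (fun t : kbox N L => |∑ v ∈ SX K Y, val v (comb b (t : ι × Fin (Module.finrank ℚ K) → ℤ)) -
      ∑ p ∈ PP Y, Hw val b c1 p (fun i => ((t : ι × Fin (Module.finrank ℚ K) → ℤ) i : ZMod p))|) ≤ M := by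
    intro Y hY3 hYX
    have hprime : ∀ p ∈ PP Y, p.Prime := fun p hp => (mem_filter.1 hp).2
    have hpY : ∀ p ∈ PP Y, p ≤ Y := fun p hp => (mem_Icc.1 (mem_filter.1 hp).1).2
    have e1 : ∀ t : ι × Fin (Module.finrank ℚ K) → ℤ, ∑ v ∈ SX K Y, val v (comb b t) - ∑ p ∈ PP Y, Hw val b c1 p (fun i => (t i : ZMod p)) =
        ∑ p ∈ PP Y, Hw val b (c2 Y) p (fun i => (t i : ZMod p)) := by
      intro t
      have h1 : ∑ v ∈ SX K Y, val v (comb b t) = ∑ v ∈ SX K Y, cY Y (Ideal.absNorm v.asIdeal) * val v (comb b t) := by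
        refine sum_congr rfl fun v hv => ?_
        have : cY Y (Ideal.absNorm v.asIdeal) = 1 := if_pos (mem_SX.1 hv)
        rw [this, one_mul]
      rw [h1, sum_Hw hloc b (cY Y) Y (fun n hn => by
        unfold cY
        rw [if_neg (not_le.2 hn)]) t, sub_eq_iff_eq_add, ← sum_add_distrib]
      refine sum_congr rfl fun p hp => ?_
      rw [split b Y p hp]
      ring
    have hT : (0 : ℝ) < (X : ℝ) ^ 5 := by positivity
    have h1 := sq_kbox (PP Y) hprime Y hpY (Hw val b (c2 Y)) (fun p => D * B / p) (fun p hp => by positivity) C₅ hC₅1 (fun p hp => by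
      have hp1 : (1 : ℝ) ≤ p := by exact_mod_cast (hprime p hp).one_lt.le
      have h2 : D * B / p ≤ D * B := div_le_self (by positivity) hp1
      show 2 * (D * B / p) ≤ C₅
      rw [hC₅]
      linarith) (fun p hp u => by
      have := c2_small hloc hB b Y p (hprime p hp) u
      rw [← hD] at this
      exact this) _ hT N L hL
    have h2 : ∑ p ∈ PP Y, (2 * (D * B / p)) ^ 2 ≤ (2 * (D * B)) ^ 2 * C₀ := by
      refine le_trans ?_ (mul_le_mul_of_nonneg_left (hC₀ (PP Y) hprime) (by positivity))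
      rw [mul_sum]
      refine sum_le_sum fun p hp => ?_
      have hp1 : (1 : ℝ) ≤ p := by exact_mod_cast (hprime p hp).one_lt.le
      have hs1 : 1 ≤ Real.sqrt p := Real.one_le_sqrt.2 hp1
      have hs2 : Real.sqrt p ^ 2 = p := Real.sq_sqrt (by linarith)
      have h3 : (2 * (D * B / p)) ^ 2 = (2 * (D * B)) ^ 2 * (1 / (p : ℝ) ^ 2) := by
        field_simp
      rw [h3]
      refine mul_le_mul_of_nonneg_left (one_div_le_one_div_of_le (by positivity) ?_) (by positivity)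
      calc Real.sqrt p ^ 3 ≤ Real.sqrt p ^ 4 := pow_le_pow_right₀ hs1 (by norm_num)
        _ = (Real.sqrt p ^ 2) ^ 2 := by ring
        _ = (p : ℝ) ^ 2 := by rw [hs2]
    have h3 : (Y : ℝ) ^ 2 * (C₅ ^ 2 * (Real.exp (Fintype.card (ι × Fin (Module.finrank ℚ K)) * (Y : ℝ) ^ 2 / (X : ℝ) ^ 5) - 1)) ≤
        C₅ ^ 2 * (δ * Real.exp δ) := by
      rw [← hδ]
      have hYX' : (Y : ℝ) ≤ X := by exact_mod_cast hYX
      have hY2 : (Y : ℝ) ^ 2 ≤ (X : ℝ) ^ 2 := pow_le_pow_left₀ (Nat.cast_nonneg _) hYX' 2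
      have h4 : (δ : ℝ) * (Y : ℝ) ^ 2 / (X : ℝ) ^ 5 ≤ δ * (1 / (X : ℝ) ^ 3) := by
        rw [div_le_iff₀ hT]
        have h5 : (δ : ℝ) * (1 / (X : ℝ) ^ 3) * (X : ℝ) ^ 5 = δ * (X : ℝ) ^ 2 := by
          field_simp
        rw [h5]
        exact mul_le_mul_of_nonneg_left hY2 (Nat.cast_nonneg _)
      have h5 : 1 / (X : ℝ) ^ 3 ≤ 1 := by
        rw [div_le_one (by positivity)]
        exact one_le_pow₀ (by linarith)
      have h6 : (0 : ℝ) ≤ δ * (1 / (X : ℝ) ^ 3) := by positivity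
      have h7 : Real.exp ((δ : ℝ) * (Y : ℝ) ^ 2 / (X : ℝ) ^ 5) - 1 ≤ δ * (1 / (X : ℝ) ^ 3) * Real.exp δ := by
        have h8 := exp_sub_one h6
        have h9 := Real.exp_le_exp.2 h4
        have h10 : Real.exp ((δ : ℝ) * (1 / (X : ℝ) ^ 3)) ≤ Real.exp δ := by
          apply Real.exp_le_exp.2
          have := mul_le_mul_of_nonneg_left h5 (Nat.cast_nonneg δ : (0 : ℝ) ≤ δ)
          linarith
        have h11 := mul_le_mul_of_nonneg_left h10 h6
        linarith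
      have h8 : (Y : ℝ) ^ 2 * (1 / (X : ℝ) ^ 3) ≤ 1 := by
        rw [mul_one_div, div_le_one (by positivity)]
        exact hY2.trans (pow_le_pow_right₀ (by linarith) (by norm_num))
      calc (Y : ℝ) ^ 2 * (C₅ ^ 2 * (Real.exp ((δ : ℝ) * (Y : ℝ) ^ 2 / (X : ℝ) ^ 5) - 1)) ≤
            (Y : ℝ) ^ 2 * (C₅ ^ 2 * (δ * (1 / (X : ℝ) ^ 3) * Real.exp δ)) :=
            mul_le_mul_of_nonneg_left (mul_le_mul_of_nonneg_left h7 (by positivity)) (by positivity)
        _ = C₅ ^ 2 * (δ * Real.exp δ) * ((Y : ℝ) ^ 2 * (1 / (X : ℝ) ^ 3)) := by ring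
        _ ≤ C₅ ^ 2 * (δ * Real.exp δ) * 1 := mul_le_mul_of_nonneg_left h8 (by positivity)
        _ = _ := mul_one _
    have h4 : |∑ p ∈ PP Y, mn (Hw val b (c2 Y)) p| ≤ C₁ * C₀ := by
      refine (abs_sum_le_sum_abs _ _).trans (le_trans ?_ (mul_le_mul_of_nonneg_left (hC₀ (PP Y) hprime) hC₁0))
      rw [mul_sum]
      refine sum_le_sum fun p hp => ?_
      have hpp := hprime p hp
      have : Fact p.Prime := ⟨hpp⟩
      rw [mn_eq]
      have h5 := hC₁ val hloc ⟨p, hpp⟩ (Module.finrank ℚ K) b hb (c2 Y) 1 zero_le_one (fun f _ _ => c2_le _ _)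
      have h6 : c2 Y p = 0 := if_neg (fun h => h.2 hpp)
      have h7 : |av (Hw val b (c2 Y) p) - c2 Y p * (κ * (nu K p / p))| ≤ C₁ * 1 / (p : ℝ) ^ (3 / 2 : ℝ) := h5
      rw [h6, zero_mul, sub_zero, mul_one, rpow_sqrt] at h7
      rw [mul_one_div]
      exact h7
    have h5 : ∀ t : kbox N L, |∑ v ∈ SX K Y, val v (comb b (t : ι × Fin (Module.finrank ℚ K) → ℤ)) -
        ∑ p ∈ PP Y, Hw val b c1 p (fun i => ((t : ι × Fin (Module.finrank ℚ K) → ℤ) i : ZMod p))| ≤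
        (∑ p ∈ PP Y, (Hw val b (c2 Y) p (fun i => ((t : ι × Fin (Module.finrank ℚ K) → ℤ) i : ZMod p)) - mn (Hw val b (c2 Y)) p)) ^ 2 +
          (1 + C₁ * C₀) := by
      intro t
      rw [e1]
      obtain ⟨z, hz⟩ : ∃ z : ℝ, z = ∑ p ∈ PP Y, (Hw val b (c2 Y) p (fun i => ((t : ι × Fin (Module.finrank ℚ K) → ℤ) i : ZMod p)) - mn (Hw val b (c2 Y)) p) :=
        ⟨_, rfl⟩
      rw [← hz]
      have h6 : ∑ p ∈ PP Y, Hw val b (c2 Y) p (fun i => ((t : ι × Fin (Module.finrank ℚ K) → ℤ) i : ZMod p)) = z + ∑ p ∈ PP Y, mn (Hw val b (c2 Y)) p := by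
        rw [hz, sum_sub_distrib]
        ring
      rw [h6]
      refine (abs_add_le _ _).trans ?_
      have h7 : |z| ≤ z ^ 2 + 1 := by
        rw [← sq_abs z]
        have := sq_nonneg (|z| - 1)
        have h8 := abs_nonneg z
        linarith [sq_nonneg (|z|)]
      linarith
    refine (av_mono h5).trans ?_
    rw [av_add, av_const]
    have h6 : 1 + ((2 * (D * B)) ^ 2 * C₀ + C₅ ^ 2 * (δ * Real.exp δ)) + C₁ * C₀ ≤ M := by
      rw [hM]
      exact le_max_right _ _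
    linarith
  have h1 := h
    { X := X
      N := N
      L := L
      H := Hw val b c1
      F := fun Y t => ∑ v ∈ SX K Y, val v (comb b t)
      hX := hX16
      hL := hL
      hH := fun p hp u => by
        have h2 := Hw_le hloc hB b c1 p hp (R := 1) zero_le_one (fun f _ _ => c1_le _) u
        rw [← hD, mul_one] at h2
        exact h2.trans (div_le_div_of_nonneg_right (by linarith) (Real.sqrt_nonneg _))
      h2 := fun Y hY => (g1 Y hY).trans (by rw [hM]; exact le_max_left _ _)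
      h3 := fun Y hY => (g2 Y hY).trans (by rw [hM]; exact le_max_left _ _)
      hF := hF } hXX₁
  have h2 : (kbox N L).filter (fun t => ∀ s : I, (∑ v ∈ SX K (tm X (s : ℝ≥0)), val v (comb b t) - κ * (s : ℝ≥0) * Real.log (Real.log X)) /
      Real.sqrt (Real.log (Real.log X)) ≤ x s) = E := by
    ext n
    rw [mem_filter, hE]
  rw [← h2]
  exact h1

end Q282.JB
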