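import Pool.Agent.Q282.JK.Val
import Pool.Agent.Q282.FF.Sq
import Pool.Agent.Q282.MN.Res

/-!
# The local second moments for the Jacobians with marked points
-/

set_option autoImplicit false
set_option linter.unusedSectionVars false

namespace Q282.JB

open Polynomial Finset NumberField IsDedekindDomain
open Q282.JK Q282.CL Q282.MN
open Pool.Agent.H341R2.Sharp
open Pool.Agent.H921R2.TatePole (below deg nm nm_eq)

lemma rpow_q {q : ℝ} (hq : 0 ≤ q) : q ^ (3 / 2 : ℝ) = Real.sqrt q ^ 3 := by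
  rw [Real.sqrt_eq_rpow, ← Real.rpow_natCast, ← Real.rpow_mul hq]
  norm_num

/-- second moments -/
lemma sq_abs' {Ω : Type} [Fintype Ω] (a B C₂ C₃ : ℝ) (ha : 0 ≤ a) (hB : 0 ≤ B)
    (q : ℝ) (hq : 1 ≤ q) (Q : ℝ) (hQ : Q = Fintype.card Ω) (t1 G : Ω → ℝ) (bad : Ω → Prop) [DecidablePred bad]
    (h1 : ∀ u, |t1 u| ≤ a * Real.sqrt q) (m2 : |∑ u, t1 u ^ 2 - q * Q| ≤ C₂ * Q)
    (hbad : (((univ : Finset Ω).filter bad).card : ℝ) * q ≤ C₃ * Q)
    (hG0 : ∀ u, bad u → G u = 0) (hG : ∀ u, ¬ bad u → |G u - t1 u / q| ≤ B / q)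
    (hΩ : 0 < Q) (hC₂ : 0 ≤ C₂) (hC₃ : 0 ≤ C₃) :
    |(∑ u, G u ^ 2) / Q - 1 / q| ≤ (2 * a * B + B ^ 2 + a ^ 2 * C₃ + C₂) / q ^ (3 / 2 : ℝ) := by
  obtain ⟨s, hs⟩ : ∃ s : ℝ, s = Real.sqrt q := ⟨_, rfl⟩
  have hq0 : 0 < q := by linarith
  have hsq : s ^ 2 = q := by rw [hs, Real.sq_sqrt hq0.le]
  have hs1 : 1 ≤ s := by rw [hs]; exact Real.one_le_sqrt.2 hq
  have hs0 : 0 < s := by linarith
  rw [← hs] at h1
  rw [rpow_q hq0.le, ← hs]
  have hpt : ∀ u, |G u ^ 2 - (t1 u / q) ^ 2| ≤ (2 * a * B + B ^ 2) / s ^ 3 + if bad u then a ^ 2 / q else 0 := by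
    intro u
    have h2 : |t1 u / q| ≤ a / s := by
      rw [abs_div, abs_of_pos hq0, div_le_div_iff₀ hq0 hs0]
      calc |t1 u| * s ≤ a * s * s := mul_le_mul_of_nonneg_right (h1 u) hs0.le
        _ = a * q := by rw [← hsq]; ring
    by_cases hb : bad u
    · rw [hG0 u hb, if_pos hb]
      have h3 : (t1 u / q) ^ 2 ≤ a ^ 2 / q := by
        have h5 : a ^ 2 / q = (a / s) ^ 2 := by rw [div_pow, hsq]
        rw [← sq_abs, h5]
        exact pow_le_pow_left₀ (abs_nonneg _) h2 2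
      have h4 : |(0 : ℝ) ^ 2 - (t1 u / q) ^ 2| = (t1 u / q) ^ 2 := by
        rw [abs_sub_comm]
        norm_num
      rw [h4]
      have : 0 ≤ (2 * a * B + B ^ 2) / s ^ 3 := by positivity
      linarith
    · rw [if_neg hb, add_zero]
      have h3 := hG u hb
      have h4 : |G u + t1 u / q| ≤ 2 * a / s + B / q := by
        have h5 : G u + t1 u / q = (G u - t1 u / q) + 2 * (t1 u / q) := by ring
        rw [h5]
        refine (abs_add_le _ _).trans ?_
        rw [abs_mul, abs_of_pos (by norm_num : (0 : ℝ) < 2)]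
        have h6 : 2 * a / s = 2 * (a / s) := by ring
        rw [h6]
        linarith
      have h5 : G u ^ 2 - (t1 u / q) ^ 2 = (G u - t1 u / q) * (G u + t1 u / q) := by ring
      rw [h5, abs_mul]
      refine (mul_le_mul h3 h4 (abs_nonneg _) (by positivity)).trans ?_
      have h6 : B / q * (2 * a / s + B / q) = 2 * a * B / s ^ 3 + B ^ 2 / s ^ 4 := by
        rw [← hsq]
        field_simp
      rw [h6, add_div]
      have h7 : B ^ 2 / s ^ 4 ≤ B ^ 2 / s ^ 3 :=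
        div_le_div_of_nonneg_left (by positivity) (by positivity) (pow_le_pow_right₀ hs1 (by norm_num))
      linarith
  have hsum : |∑ u, G u ^ 2 - ∑ u, (t1 u / q) ^ 2| ≤ Q * ((2 * a * B + B ^ 2) / s ^ 3) + C₃ * Q / q * (a ^ 2 / q) := by
    rw [← sum_sub_distrib]
    refine (abs_sum_le_sum_abs _ _).trans ((sum_le_sum fun u _ => hpt u).trans ?_)
    rw [sum_add_distrib, sum_const, card_univ, nsmul_eq_mul, ← hQ, ← sum_filter, sum_const, nsmul_eq_mul]
    have h2 : (((univ : Finset Ω).filter bad).card : ℝ) ≤ C₃ * Q / q := by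
      rw [le_div_iff₀ hq0]
      exact hbad
    have := mul_le_mul_of_nonneg_right h2 (by positivity : 0 ≤ a ^ 2 / q)
    linarith
  have hsum2 : |∑ u, (t1 u / q) ^ 2 - Q / q| ≤ C₂ * Q / q ^ 2 := by
    have h2 : ∑ u, (t1 u / q) ^ 2 - Q / q = (∑ u, t1 u ^ 2 - q * Q) / q ^ 2 := by
      rw [sub_div, sum_div]
      congr 1
      · exact sum_congr rfl fun u _ => by rw [div_pow]
      · field_simp
    rw [h2, abs_div, abs_of_pos (by positivity : 0 < q ^ 2)]
    exact div_le_div_of_nonneg_right m2 (by positivity)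
  have h2 : (∑ u, G u ^ 2) / Q - 1 / q = ((∑ u, G u ^ 2 - ∑ u, (t1 u / q) ^ 2) + (∑ u, (t1 u / q) ^ 2 - Q / q)) / Q := by
    field_simp
    ring
  rw [h2, abs_div, abs_of_pos hΩ, div_le_iff₀ hΩ]
  refine (abs_add_le _ _).trans ((add_le_add hsum hsum2).trans ?_)
  have e1 : C₃ * Q / q * (a ^ 2 / q) = Q * (a ^ 2 * C₃ / s ^ 4) := by
    rw [← hsq]
    field_simp
  have e2 : C₂ * Q / q ^ 2 = Q * (C₂ / s ^ 4) := by
    rw [← hsq]
    field_simp
  have e3 : a ^ 2 * C₃ / s ^ 4 ≤ a ^ 2 * C₃ / s ^ 3 :=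
    div_le_div_of_nonneg_left (by positivity) (by positivity) (pow_le_pow_right₀ hs1 (by norm_num))
  have e4 : C₂ / s ^ 4 ≤ C₂ / s ^ 3 :=
    div_le_div_of_nonneg_left (by positivity) (by positivity) (pow_le_pow_right₀ hs1 (by norm_num))
  rw [e1, e2]
  have e5 : Q * ((2 * a * B + B ^ 2) / s ^ 3) + Q * (a ^ 2 * C₃ / s ^ 4) + Q * (C₂ / s ^ 4) ≤
      Q * ((2 * a * B + B ^ 2) / s ^ 3) + Q * (a ^ 2 * C₃ / s ^ 3) + Q * (C₂ / s ^ 3) := by
    have e6 := mul_le_mul_of_nonneg_left e3 hΩ.le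
    have e7 := mul_le_mul_of_nonneg_left e4 hΩ.le
    linarith
  refine e5.trans (le_of_eq ?_)
  ring

/-- means of the traces -/
lemma lin_abs {Ω : Type} [Fintype Ω] (a κ C₁ C₃ : ℝ) (ha : 0 ≤ a)
    (q : ℝ) (hq : 1 ≤ q) (Q : ℝ) (hQ : Q = Fintype.card Ω) (t1 G : Ω → ℝ) (bad : Ω → Prop) [DecidablePred bad]
    (h1 : ∀ u, |t1 u| ≤ a * Real.sqrt q) (m1 : |∑ u, t1 u - κ * Q| * q ≤ C₁ * Q)
    (hbad : (((univ : Finset Ω).filter bad).card : ℝ) * q ≤ C₃ * Q)
    (hG : ∀ u, G u = if bad u then 0 else t1 u / q)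
    (hΩ : 0 < Q) (hC₁ : 0 ≤ C₁) (hC₃ : 0 ≤ C₃) :
    |(∑ u, G u) / Q - κ / q| ≤ (a * C₃ + C₁) / q ^ (3 / 2 : ℝ) := by
  obtain ⟨s, hs⟩ : ∃ s : ℝ, s = Real.sqrt q := ⟨_, rfl⟩
  have hq0 : 0 < q := by linarith
  have hsq : s ^ 2 = q := by rw [hs, Real.sq_sqrt hq0.le]
  have hs1 : 1 ≤ s := by rw [hs]; exact Real.one_le_sqrt.2 hq
  have hs0 : 0 < s := by linarith
  rw [← hs] at h1
  rw [rpow_q hq0.le, ← hs]
  have e1 : (∑ u, G u) / Q - κ / q = ((∑ u, t1 u - κ * Q) - ∑ u ∈ univ.filter bad, t1 u) / (q * Q) := by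
    have e2 : ∑ u, G u = (∑ u, t1 u - ∑ u ∈ univ.filter bad, t1 u) / q := by
      rw [sum_filter, ← sum_sub_distrib, sum_div]
      refine sum_congr rfl fun u _ => ?_
      rw [hG]
      split_ifs <;> ring
    rw [e2]
    field_simp
    ring
  have hb : |∑ u ∈ univ.filter bad, t1 u| ≤ C₃ * Q / q * (a * s) := by
    refine (abs_sum_le_sum_abs _ _).trans ((sum_le_sum fun u _ => h1 u).trans ?_)
    rw [sum_const, nsmul_eq_mul]
    refine mul_le_mul_of_nonneg_right ?_ (by positivity)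
    rw [le_div_iff₀ hq0]
    exact hbad
  have hm : |∑ u, t1 u - κ * Q| ≤ C₁ * Q / q := by
    rw [le_div_iff₀ hq0]
    exact m1
  rw [e1, abs_div, abs_of_pos (by positivity : 0 < q * Q), div_le_iff₀ (by positivity)]
  refine (abs_sub _ _).trans ((add_le_add hm hb).trans ?_)
  have e2 : (a * C₃ + C₁) / s ^ 3 * (q * Q) = C₁ * Q / s + C₃ * Q / q * (a * s) := by
    rw [← hsq]
    field_simp
    ring
  rw [e2]
  have e3 : C₁ * Q / q ≤ C₁ * Q / s := by
    refine div_le_div_of_nonneg_left (by positivity) hs0 ?_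
    rw [← hsq]
    calc s = s ^ 1 := (pow_one s).symm
      _ ≤ s ^ 2 := pow_le_pow_right₀ hs1 (by norm_num)
  linarith

section

variable {F : Type} [Field F] [Fintype F] [DecidableEq F] {r m : ℕ}

open Classical in
/-- the local value of the trace -/
noncomputable def locT (u : Idx r m → F) : ℝ :=
  if (2 : F) ≠ 0 ∧ Squarefree (fpol u) then (T (fpol u) 1 : ℝ) / Fintype.card F else 0

end

open Classical in
/-- the second moments of the logarithms -/
theorem locJ_sq (g r m : ℕ) (hrm : r + m = 2 * g + 1) (hrg : r ≤ g) (hg : 1 ≤ g) : ∃ B : ℝ, 0 ≤ B ∧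
    ∀ (F : Type) [Field F] [Fintype F] [DecidableEq F], ringChar F ≠ 2 →
    |(∑ u : Idx r m → F, locJ g u ^ 2) / (Fintype.card F : ℝ) ^ Fintype.card (Idx r m) - 1 / Fintype.card F| ≤
      B / (Fintype.card F : ℝ) ^ (3 / 2 : ℝ) := by
  obtain ⟨B, hB0, hB⟩ := lv_log g
  obtain ⟨a, ha⟩ : ∃ a : ℝ, a = 5 * (2 * g + 1) := ⟨_, rfl⟩
  have ha0 : 0 ≤ a := by rw [ha]; positivity
  obtain ⟨C₂, hC₂⟩ : ∃ C₂ : ℝ, C₂ = (r + m : ℕ) + (r : ℝ) ^ 2 := ⟨_, rfl⟩
  obtain ⟨C₃, hC₃⟩ : ∃ C₃ : ℝ, C₃ = r ^ 2 + r + g := ⟨_, rfl⟩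
  have h2 : 0 ≤ C₂ := by rw [hC₂]; positivity
  have h3 : 0 ≤ C₃ := by rw [hC₃]; positivity
  refine ⟨2 * a * (B + a) + (B + a) ^ 2 + a ^ 2 * C₃ + C₂, by positivity, fun F _ _ _ hF => ?_⟩
  have hq1 : (1 : ℝ) ≤ Fintype.card F := by exact_mod_cast Fintype.card_pos
  have hmon : ∀ u : Idx r m → F, (fpol u).Monic := fun u => fpol_monic (by omega) u
  have hdeg : ∀ u : Idx r m → F, (fpol u).natDegree = 2 * g + 1 := fun u => by
    rw [fpol_natDegree (by omega : r ≤ m)]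
    exact hrm
  have hT : ∀ (u : Idx r m → F) (k : ℕ), 1 ≤ k → |(T (fpol u) k : ℝ)| ≤ a * (Real.sqrt (Fintype.card F)) ^ k := by
    intro u k hk
    have h4 := (T_bound hF (hmon u) (by rw [hdeg]; omega) (odd_ns (hmon u) (hdeg u)) k hk).1
    rw [hdeg] at h4
    refine h4.trans (le_of_eq ?_)
    rw [ha]
    push_cast
    ring
  refine sq_abs' a (B + a) C₂ C₃ ha0 (by positivity) (Fintype.card F) hq1 ((Fintype.card F : ℝ) ^ Fintype.card (Idx r m)) ?_
    (fun u => (T (fpol u) 1 : ℝ)) (fun u => locJ g u) (fun u => ¬ Squarefree (fpol u)) ?_ ?_ ?_ ?_ ?_ (by positivity) h2 h3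
  · rw [Fintype.card_fun]
    push_cast
    rfl
  · intro u
    have := hT u 1 le_rfl
    rwa [pow_one] at this
  · rw [hC₂]
    exact Q282.FF.mom_sq hF (by omega) (by omega)
  · rw [hC₃]
    exact bad_card hrm hrg
  · intro u hu
    unfold locJ
    rw [if_neg (fun h => hu h.2)]
  · intro u hu
    rw [not_not] at hu
    unfold locJ
    rw [if_pos ⟨Ring.two_ne_zero hF, hu⟩]
    have h4 := (hB F hF (fpol u) (hmon u) (hdeg u)).2
    have h5 := hT u 2 (by norm_num)
    rw [Real.sq_sqrt (by positivity)] at h5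
    obtain ⟨q, hq⟩ : ∃ q : ℝ, q = Fintype.card F := ⟨_, rfl⟩
    rw [← hq] at h4 h5 hq1 ⊢
    have hq0 : 0 < q := by linarith
    have hs1 : 1 ≤ Real.sqrt q := Real.one_le_sqrt.2 hq1
    have h6 : B / Real.sqrt q ^ 3 ≤ B / q := by
      refine div_le_div_of_nonneg_left hB0 hq0 ?_
      calc q = Real.sqrt q ^ 2 := (Real.sq_sqrt hq0.le).symm
        _ ≤ _ := pow_le_pow_right₀ hs1 (by norm_num)
    have h7 : |(T (fpol u) 2 : ℝ) / (2 * q ^ 2)| ≤ a / q := by
      rw [abs_div, abs_of_pos (by positivity : 0 < 2 * q ^ 2), div_le_div_iff₀ (by positivity) hq0]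
      have h8 := mul_le_mul_of_nonneg_right h5 hq0.le
      have h9 : 0 ≤ a * q ^ 2 := by positivity
      have h10 : a * q * q = a * q ^ 2 := by ring
      linarith
    have h8 : Real.log (lv g (fpol u)) - (T (fpol u) 1 : ℝ) / q =
        (Real.log (lv g (fpol u)) - ((T (fpol u) 1 : ℝ) / q + (T (fpol u) 2 : ℝ) / (2 * q ^ 2))) + (T (fpol u) 2 : ℝ) / (2 * q ^ 2) := by ring
    rw [h8, add_div]
    refine (abs_add_le _ _).trans ?_
    linarith

open Classical in
/-- the bounds, means and second moments of the traces -/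
theorem locT_all (g r m : ℕ) (hrm : r + m = 2 * g + 1) (hrg : r ≤ g) (hg : 1 ≤ g) : ∃ B : ℝ, 0 ≤ B ∧
    ∀ (F : Type) [Field F] [Fintype F] [DecidableEq F],
    (∀ u : Idx r m → F, |locT u| ≤ B / Real.sqrt (Fintype.card F)) ∧
    (ringChar F ≠ 2 →
    |(∑ u : Idx r m → F, locT u) / (Fintype.card F : ℝ) ^ Fintype.card (Idx r m) - r / Fintype.card F| ≤
      B / (Fintype.card F : ℝ) ^ (3 / 2 : ℝ) ∧
    |(∑ u : Idx r m → F, locT u ^ 2) / (Fintype.card F : ℝ) ^ Fintype.card (Idx r m) - 1 / Fintype.card F| ≤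
      B / (Fintype.card F : ℝ) ^ (3 / 2 : ℝ)) := by
  obtain ⟨a, ha⟩ : ∃ a : ℝ, a = 5 * (2 * g + 1) := ⟨_, rfl⟩
  have ha0 : 0 ≤ a := by rw [ha]; positivity
  obtain ⟨C₁, hC₁⟩ : ∃ C₁ : ℝ, C₁ = r * (r ^ 2 + r) := ⟨_, rfl⟩
  obtain ⟨C₂, hC₂⟩ : ∃ C₂ : ℝ, C₂ = (r + m : ℕ) + (r : ℝ) ^ 2 := ⟨_, rfl⟩
  obtain ⟨C₃, hC₃⟩ : ∃ C₃ : ℝ, C₃ = r ^ 2 + r + g := ⟨_, rfl⟩
  have h1 : 0 ≤ C₁ := by rw [hC₁]; positivity
  have h2 : 0 ≤ C₂ := by rw [hC₂]; positivity
  have h3 : 0 ≤ C₃ := by rw [hC₃]; positivity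
  refine ⟨a + (a * C₃ + C₁) + (2 * a * 0 + 0 ^ 2 + a ^ 2 * C₃ + C₂), by positivity, fun F _ _ _ => ?_⟩
  have hq1 : (1 : ℝ) ≤ Fintype.card F := by exact_mod_cast Fintype.card_pos
  have hs0 : 0 < Real.sqrt (Fintype.card F) := Real.sqrt_pos.2 (by linarith)
  have hmon : ∀ u : Idx r m → F, (fpol u).Monic := fun u => fpol_monic (by omega) u
  have hdeg : ∀ u : Idx r m → F, (fpol u).natDegree = 2 * g + 1 := fun u => by
    rw [fpol_natDegree (by omega : r ≤ m)]
    exact hrm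
  have hT : ringChar F ≠ 2 → ∀ (u : Idx r m → F), |(T (fpol u) 1 : ℝ)| ≤ a * (Real.sqrt (Fintype.card F)) := by
    intro hF u
    have h4 := (T_bound hF (hmon u) (by rw [hdeg]; omega) (odd_ns (hmon u) (hdeg u)) 1 le_rfl).1
    rw [hdeg, pow_one] at h4
    refine h4.trans (le_of_eq ?_)
    rw [ha]
    push_cast
    ring
  have hall : 0 ≤ (a * C₃ + C₁) ∧ 0 ≤ (2 * a * 0 + 0 ^ 2 + a ^ 2 * C₃ + C₂) := ⟨by positivity, by positivity⟩
  have hr32 : 0 ≤ (Fintype.card F : ℝ) ^ (3 / 2 : ℝ) := by positivity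
  refine ⟨?_, ?_⟩
  · intro u
    have hle : a / Real.sqrt (Fintype.card F) ≤ (a + (a * C₃ + C₁) + (2 * a * 0 + 0 ^ 2 + a ^ 2 * C₃ + C₂)) / Real.sqrt (Fintype.card F) :=
      div_le_div_of_nonneg_right (by linarith [hall.1, hall.2]) hs0.le
    refine le_trans ?_ hle
    unfold locT
    split_ifs with h
    · have hF : ringChar F ≠ 2 := by
        intro hc
        apply h.1
        have := CharP.cast_eq_zero F (ringChar F)
        rw [hc] at this
        exact_mod_cast this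
      rw [abs_div, abs_of_pos (by linarith : (0 : ℝ) < Fintype.card F), div_le_div_iff₀ (by linarith) hs0]
      have := mul_le_mul_of_nonneg_right (hT hF u) hs0.le
      rw [mul_assoc, Real.mul_self_sqrt (by linarith)] at this
      exact this
    · rw [abs_zero]
      positivity
  · intro hF
    have hcard : ((Fintype.card F : ℝ) ^ Fintype.card (Idx r m)) = Fintype.card (Idx r m → F) := by
      rw [Fintype.card_fun]
      push_cast
      rfl
    constructor
    · refine (lin_abs a r C₁ C₃ ha0 (Fintype.card F) hq1 ((Fintype.card F : ℝ) ^ Fintype.card (Idx r m)) hcard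
        (fun u => (T (fpol u) 1 : ℝ)) (fun u => locT u) (fun u => ¬ Squarefree (fpol u)) (hT hF) ?_ ?_ ?_ (by positivity) h1 h3).trans ?_
      · rw [hC₁]
        exact mom_one hF (by omega)
      · rw [hC₃]
        exact bad_card hrm hrg
      · intro u
        unfold locT
        by_cases h : Squarefree (fpol u)
        · rw [if_pos ⟨Ring.two_ne_zero hF, h⟩, if_neg (not_not.2 h)]
        · rw [if_neg (fun h' => h h'.2), if_pos h]
      · exact div_le_div_of_nonneg_right (by linarith [hall.2]) hr32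
    · refine (sq_abs' a 0 C₂ C₃ ha0 le_rfl (Fintype.card F) hq1 ((Fintype.card F : ℝ) ^ Fintype.card (Idx r m)) hcard
        (fun u => (T (fpol u) 1 : ℝ)) (fun u => locT u) (fun u => ¬ Squarefree (fpol u)) (hT hF) ?_ ?_ ?_ ?_ (by positivity) h2 h3).trans ?_
      · rw [hC₂]
        exact Q282.FF.mom_sq hF (by omega) (by omega)
      · rw [hC₃]
        exact bad_card hrm hrg
      · intro u hu
        unfold locT
        rw [if_neg (fun h => hu h.2)]
      · intro u hu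
        rw [not_not] at hu
        unfold locT
        rw [if_pos ⟨Ring.two_ne_zero hF, hu⟩, sub_self, abs_zero, zero_div]
      · exact div_le_div_of_nonneg_right (by linarith [hall.1]) hr32

section

variable {K : Type} [Field K] [NumberField K]

/-- the local data of the logarithms of the factors -/
theorem loc2_J (K : Type) [Field K] [NumberField K] (g r m : ℕ) (hrm : r + m = 2 * g + 1) (hrg : r ≤ g) (hg : 1 ≤ g) :
    ∃ B : ℝ, 0 ≤ B ∧ Loc2 K (Idx r m) 3 (r + 1 / 2) B (fun v t => JK.val (fpol t) v) := by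
  classical
  obtain ⟨B, hB0, hB⟩ := locJ_mean g r m hrm hrg hg
  obtain ⟨B', hB'0, hB'⟩ := locJ_sq g r m hrm hrg hg
  refine ⟨B + B', by positivity, fun v => ?_⟩
  let _ : Fintype (Res v) := Fintype.ofFinite _
  obtain ⟨h1, h2⟩ := hB (Res v)
  have hcard : (Fintype.card (Idx r m → Res v) : ℝ) = (Fintype.card (Res v) : ℝ) ^ Fintype.card (Idx r m) := by
    rw [Fintype.card_fun]
    push_cast
    rfl
  refine ⟨Res v, inferInstance, inferInstance, red v, fun u => locJ g u, red_surj v, Ideal.mk_ker, res_char v, res_card v, ?_, ?_, ?_⟩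
  · intro t
    have hmon : (fpol t).Monic := fpol_monic (by omega) t
    have hdeg : (fpol t).natDegree = 2 * g + 1 := by rw [fpol_natDegree (by omega : r ≤ m), hrm]
    show JK.val (fpol t) v = locJ g (fun i => red v (t i))
    unfold JK.val locJ Good
    rw [← fpol_map, two_iff]
    by_cases hg2 : (2 : Res v) ≠ 0 ∧ Squarefree ((fpol t).map (red v))
    · rw [if_pos hg2, if_pos hg2, factor_eq (fpol t) hmon g hdeg v hg2.1]
    · rw [if_neg hg2, if_neg hg2]
  · intro u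
    exact (h1 u).trans (div_le_div_of_nonneg_right (by linarith) (Real.sqrt_nonneg _))
  · intro h3
    have h4 := ring_two v h3
    unfold av
    rw [hcard]
    constructor
    · exact (h2 h4).trans (div_le_div_of_nonneg_right (by linarith) (by positivity))
    · exact (hB' (Res v) h4).trans (div_le_div_of_nonneg_right (by linarith) (by positivity))

open Classical in
/-- `- a_v / q_v` -/
noncomputable def valT (f : (𝓞 K)[X]) (v : HeightOneSpectrum (𝓞 K)) : ℝ :=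
  if Good f v then ((points f v 1 : ℝ) - Ideal.absNorm v.asIdeal) / Ideal.absNorm v.asIdeal else 0

/-- the local data of the traces -/
theorem loc2_T (K : Type) [Field K] [NumberField K] (g r m : ℕ) (hrm : r + m = 2 * g + 1) (hrg : r ≤ g) (hg : 1 ≤ g) :
    ∃ B : ℝ, 0 ≤ B ∧ Loc2 K (Idx r m) 3 r B (fun v t => valT (fpol t) v) := by
  classical
  obtain ⟨B, hB0, hB⟩ := locT_all g r m hrm hrg hg
  refine ⟨B, hB0, fun v => ?_⟩
  let _ : Fintype (Res v) := Fintype.ofFinite _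
  obtain ⟨h1, h2⟩ := hB (Res v)
  have hcard : (Fintype.card (Idx r m → Res v) : ℝ) = (Fintype.card (Res v) : ℝ) ^ Fintype.card (Idx r m) := by
    rw [Fintype.card_fun]
    push_cast
    rfl
  refine ⟨Res v, inferInstance, inferInstance, red v, fun u => locT u, red_surj v, Ideal.mk_ker, res_char v, res_card v, ?_, h1, ?_⟩
  · intro t
    show valT (fpol t) v = locT (fun i => red v (t i))
    unfold valT locT Good
    rw [← fpol_map, two_iff]
    by_cases hg2 : (2 : Res v) ≠ 0 ∧ Squarefree ((fpol t).map (red v))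
    · rw [if_pos hg2, if_pos hg2, ← pts_eq (res_ring v hg2.1) ((fpol t).map (red v)) 1 le_rfl]
      unfold points
      rw [res_card v]
      simp only [pow_one]
    · rw [if_neg hg2, if_neg hg2]
  · intro h3
    have h4 := ring_two v h3
    unfold av
    rw [hcard]
    exact h2 h4

end

end Q282.JB
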